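import Pool.Agent.W2helper59.NW.Stm

/-!
# PF0 and PF for S09083 (MP_5fb7d4_co): the optimal data

With `r = (1 + √(1 + 16 φ)) / 8` and `K = √((17 + 4 φ - 4 r) / 9)` all data are `K` times an element
of `ℚ(φ, r)`; the identities are checked by `linear_combination` with explicit cofactors.
-/

set_option autoImplicit false

namespace Pool.Agent.W2helper59.NW

open scoped goldenRatio

namespace PFaux

theorem hf : φ ^ 2 = φ + 1 := Real.goldenRatio_sq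


theorem f_lo : (16180339887498948482044 / 10 ^ 22 : ℝ) ≤ φ := by
  have h5 : (22360679774997896964088 / 10 ^ 22 : ℝ) ≤ √5 := by
    apply Real.le_sqrt_of_sq_le; norm_num
  unfold Real.goldenRatio
  linarith [h5]

theorem f_hi : φ ≤ (16180339887498948482047 / 10 ^ 22 : ℝ) := by
  have h5 : √5 ≤ (22360679774997896964094 / 10 ^ 22 : ℝ) := by
    rw [Real.sqrt_le_left (by norm_num)]; norm_num
  unfold Real.goldenRatio
  linarith [h5]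

theorem pf0 : |φ - 16180339887498949 / 10 ^ 16| ≤ 1 / 10 ^ 15 := by
  have h1 := f_lo
  have h2 := f_hi
  rw [abs_le]; constructor <;> norm_num at h1 h2 ⊢ <;> linarith

noncomputable def r : ℝ := (1 + √(1 + 16 * φ)) / 8

theorem hr : r ^ 2 = (r + φ) / 4 := by
  have h1 := f_lo
  have h : √(1 + 16 * φ) ^ 2 = 1 + 16 * φ := Real.sq_sqrt (by norm_num at h1; linarith)
  unfold r
  linear_combination h / 64

theorem r_lo : (773177056973998202661 / 10 ^ 21 : ℝ) ≤ r := by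
  have h1 := f_lo
  have h5 : (5185416455791985621288 / 10 ^ 21 : ℝ) ≤ √(1 + 16 * φ) := by
    apply Real.le_sqrt_of_sq_le; norm_num at h1 ⊢; linarith
  unfold r
  norm_num at h5 ⊢
  linarith

theorem r_hi : r ≤ (773177056973998202664 / 10 ^ 21 : ℝ) := by
  have h1 := f_hi
  have h5 : √(1 + 16 * φ) ≤ (5185416455791985621312 / 10 ^ 21 : ℝ) := by
    rw [Real.sqrt_le_left (by norm_num)]; norm_num at h1 ⊢; linarith
  unfold r
  norm_num at h5 ⊢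
  linarith

noncomputable def K : ℝ := √((17 + 4 * φ - 4 * r) / 9)

theorem hK : K ^ 2 = (17 + 4 * φ - 4 * r) / 9 := by
  have h1 := f_lo
  have h2 := r_hi
  exact Real.sq_sqrt (by norm_num at h1 h2 ⊢; linarith)

theorem K_lo : (150478598430709248009 / 10 ^ 20 : ℝ) ≤ K := by
  have h1 := f_lo
  have h2 := r_hi
  apply Real.le_sqrt_of_sq_le; norm_num at h1 h2 ⊢; linarith

theorem K_hi : K ≤ (150478598430709248012 / 10 ^ 20 : ℝ) := by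
  have h1 := f_hi
  have h2 := r_lo
  unfold K
  rw [Real.sqrt_le_left (by norm_num)]; norm_num at h1 h2 ⊢; linarith

theorem m_lo : (125102675750554301592 / 10 ^ 20 : ℝ) ≤ φ * r := by
  have h := mul_le_mul f_lo r_lo (by norm_num) (by linarith [Real.goldenRatio_pos])
  refine le_trans ?_ h; norm_num

theorem m_hi : φ * r ≤ (125102675750554301595 / 10 ^ 20 : ℝ) := by
  have h0 : 0 ≤ r := le_trans (by norm_num) r_lo
  have h := mul_le_mul f_hi r_hi h0 (by norm_num)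
  refine le_trans h ?_; norm_num

noncomputable def eA : ℝ := (9 / 5) * r + (-3 / 5) * φ * r

theorem eA_lo : (64110264804987094 / 10 ^ 17 : ℝ) ≤ eA := by
  have h1 := f_lo; have h2 := f_hi; have h3 := r_lo; have h4 := r_hi
  have h5 := m_lo; have h6 := m_hi
  unfold eA; linarith

theorem eA_hi : eA ≤ (64110264804987097 / 10 ^ 17 : ℝ) := by
  have h1 := f_lo; have h2 := f_hi; have h3 := r_lo; have h4 := r_hi
  have h5 := m_lo; have h6 := m_hi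
  unfold eA; linarith

theorem nA : |K * eA - 9647222792876086 / 10 ^ 16| ≤ 1 / 10 ^ 14 := by
  have hK0 : 0 ≤ K := le_trans (by norm_num) K_lo
  have he0 : 0 ≤ eA := le_trans (by norm_num) eA_lo
  have h1 := mul_le_mul K_lo eA_lo (by norm_num) hK0
  have h2 := mul_le_mul K_hi eA_hi he0 (by norm_num)
  rw [abs_le]; constructor <;> norm_num at h1 h2 ⊢ <;> linarith

noncomputable def eB : ℝ := (4 / 5) + (-1 / 5) * r + (-3 / 5) * φ + (2 / 5) * φ * r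

theorem eB_lo : (17495489835748064 / 10 ^ 17 : ℝ) ≤ eB := by
  have h1 := f_lo; have h2 := f_hi; have h3 := r_lo; have h4 := r_hi
  have h5 := m_lo; have h6 := m_hi
  unfold eB; linarith

theorem eB_hi : eB ≤ (17495489835748067 / 10 ^ 17 : ℝ) := by
  have h1 := f_lo; have h2 := f_hi; have h3 := r_lo; have h4 := r_hi
  have h5 := m_lo; have h6 := m_hi
  unfold eB; linarith

theorem nB : |K * eB - 2632696789342089 / 10 ^ 16| ≤ 1 / 10 ^ 14 := by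
  have hK0 : 0 ≤ K := le_trans (by norm_num) K_lo
  have he0 : 0 ≤ eB := le_trans (by norm_num) eB_lo
  have h1 := mul_le_mul K_lo eB_lo (by norm_num) hK0
  have h2 := mul_le_mul K_hi eB_hi he0 (by norm_num)
  rw [abs_le]; constructor <;> norm_num at h1 h2 ⊢ <;> linarith

noncomputable def ep : ℝ := (3 / 5) + (-1 / 5) * r + (-1 / 5) * φ + (2 / 5) * φ * r

theorem ep_lo : (62216849385743858 / 10 ^ 17 : ℝ) ≤ ep := by
  have h1 := f_lo; have h2 := f_hi; have h3 := r_lo; have h4 := r_hi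
  have h5 := m_lo; have h6 := m_hi
  unfold ep; linarith

theorem ep_hi : ep ≤ (62216849385743861 / 10 ^ 17 : ℝ) := by
  have h1 := f_lo; have h2 := f_hi; have h3 := r_lo; have h4 := r_hi
  have h5 := m_lo; have h6 := m_hi
  unfold ep; linarith

theorem np : |K * ep - 9362304294341269 / 10 ^ 16| ≤ 1 / 10 ^ 14 := by
  have hK0 : 0 ≤ K := le_trans (by norm_num) K_lo
  have he0 : 0 ≤ ep := le_trans (by norm_num) ep_lo
  have h1 := mul_le_mul K_lo ep_lo (by norm_num) hK0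
  have h2 := mul_le_mul K_hi ep_hi he0 (by norm_num)
  rw [abs_le]; constructor <;> norm_num at h1 h2 ⊢ <;> linarith

noncomputable def eq : ℝ := (-1 / 5) + (-3 / 5) * r + (2 / 5) * φ + (1 / 5) * φ * r

theorem eq_lo : (23351271281666761 / 10 ^ 17 : ℝ) ≤ eq := by
  have h1 := f_lo; have h2 := f_hi; have h3 := r_lo; have h4 := r_hi
  have h5 := m_lo; have h6 := m_hi
  unfold eq; linarith

theorem eq_hi : eq ≤ (23351271281666764 / 10 ^ 17 : ℝ) := by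
  have h1 := f_lo; have h2 := f_hi; have h3 := r_lo; have h4 := r_hi
  have h5 := m_lo; have h6 := m_hi
  unfold eq; linarith

theorem nq : |K * eq - 3513866574040487 / 10 ^ 16| ≤ 1 / 10 ^ 14 := by
  have hK0 : 0 ≤ K := le_trans (by norm_num) K_lo
  have he0 : 0 ≤ eq := le_trans (by norm_num) eq_lo
  have h1 := mul_le_mul K_lo eq_lo (by norm_num) hK0
  have h2 := mul_le_mul K_hi eq_hi he0 (by norm_num)
  rw [abs_le]; constructor <;> norm_num at h1 h2 ⊢ <;> linarith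

noncomputable def ec : ℝ := (1 / 5) + (4 / 5) * r + (-2 / 5) * φ + (2 / 5) * φ * r

theorem ec_lo : (67173875308145781 / 10 ^ 17 : ℝ) ≤ ec := by
  have h1 := f_lo; have h2 := f_hi; have h3 := r_lo; have h4 := r_hi
  have h5 := m_lo; have h6 := m_hi
  unfold ec; linarith

theorem ec_hi : ec ≤ (67173875308145784 / 10 ^ 17 : ℝ) := by
  have h1 := f_lo; have h2 := f_hi; have h3 := r_lo; have h4 := r_hi
  have h5 := m_lo; have h6 := m_hi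
  unfold ec; linarith

theorem nc : |K * ec - 10108230607529006 / 10 ^ 16| ≤ 1 / 10 ^ 14 := by
  have hK0 : 0 ≤ K := le_trans (by norm_num) K_lo
  have he0 : 0 ≤ ec := le_trans (by norm_num) ec_lo
  have h1 := mul_le_mul K_lo ec_lo (by norm_num) hK0
  have h2 := mul_le_mul K_hi ec_hi he0 (by norm_num)
  rw [abs_le]; constructor <;> norm_num at h1 h2 ⊢ <;> linarith

theorem fr : φ ^ 2 = φ + 1 ∧ r ^ 2 = (r + φ) / 4 ∧ K ^ 2 = (17 + 4 * φ - 4 * r) / 9 :=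
  ⟨hf, hr, hK⟩

theorem tAB : (K * eA) ^ 2 + (K * eB) ^ 2 = 1 := by
  unfold eA eB
  linear_combination ((-47 / 225) + (-136 / 225) * r + (11 / 45) * φ + (-16 / 75) * φ * r + (13 / 225) * φ ^ 2) * hf + ((448 / 75) + (-328 / 225) * r + (-688 / 225) * φ + (232 / 225) * φ * r + (8 / 75) * φ ^ 2 + (-52 / 225) * φ ^ 2 * r + (52 / 225) * φ ^ 3) * hr + ((16 / 25) + (-8 / 25) * r + (82 / 25) * r ^ 2 + (-24 / 25) * φ + (22 / 25) * φ * r + (-58 / 25) * φ * r ^ 2 + (9 / 25) * φ ^ 2 + (-12 / 25) * φ ^ 2 * r + (13 / 25) * φ ^ 2 * r ^ 2) * hK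

theorem tpq : (K * ep) ^ 2 + (K * eq) ^ 2 = 1 := by
  unfold ep eq
  linear_combination ((11 / 45) + (7 / 45) * φ + (1 / 45) * φ ^ 2) * hf + ((32 / 45) + (-8 / 45) * r + (-8 / 15) * φ + (8 / 45) * φ * r + (8 / 45) * φ ^ 2 + (-4 / 45) * φ ^ 2 * r + (4 / 45) * φ ^ 3) * hr + ((2 / 5) + (2 / 5) * r ^ 2 + (-2 / 5) * φ + (-2 / 5) * φ * r ^ 2 + (1 / 5) * φ ^ 2 + (1 / 5) * φ ^ 2 * r ^ 2) * hK

theorem ti1 : φ * (φ * (K * eA) + (K * eB)) = (K * ec) * (φ ^ 2 + ((φ - 1) * (K * eA) + (K * eB)) * (K * eq)) := by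
  unfold eA eB ec eq
  linear_combination ((-68 / 1125) * K + (-64 / 1125) * r * K + (-299 / 1125) * φ * K + (-23 / 1125) * φ * r * K + (-214 / 1125) * φ ^ 2 * K + (-4 / 125) * φ ^ 2 * r * K + (13 / 225) * φ ^ 3 * K + (-52 / 1125) * φ ^ 3 * r * K + (2 / 375) * φ ^ 4 * K + (2 / 375) * φ ^ 4 * r * K) * hf + ((-904 / 1125) * K + (-1832 / 1125) * r * K + (32 / 75) * r ^ 2 * K + (84 / 25) * φ * K + (1088 / 1125) * φ * r * K + (-592 / 1125) * φ * r ^ 2 * K + (-2032 / 1125) * φ ^ 2 * K + (524 / 375) * φ ^ 2 * r * K + (-16 / 375) * φ ^ 2 * r ^ 2 * K + (-316 / 375) * φ ^ 3 * K + (-188 / 375) * φ ^ 3 * r * K + (136 / 1125) * φ ^ 3 * r ^ 2 * K + (236 / 1125) * φ ^ 4 * K + (-64 / 1125) * φ ^ 4 * r * K + (-8 / 375) * φ ^ 4 * r ^ 2 * K + (8 / 375) * φ ^ 5 * K + (8 / 375) * φ ^ 5 * r * K) * hr + ((4 / 125) * K + (18 / 125) * r * K + (-22 / 125) * r ^ 2 * K + (-24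 / 25) * r ^ 3 * K + (-19 / 125) * φ * K + (-19 / 125) * φ * r * K + (8 / 5) * φ * r ^ 2 * K + (148 / 125) * φ * r ^ 3 * K + (28 / 125) * φ ^ 2 * K + (-68 / 125) * φ ^ 2 * r * K + (-197 / 125) * φ ^ 2 * r ^ 2 * K + (12 / 125) * φ ^ 2 * r ^ 3 * K + (-12 / 125) * φ ^ 3 * K + (74 / 125) * φ ^ 3 * r * K + (17 / 125) * φ ^ 3 * r ^ 2 * K + (-34 / 125) * φ ^ 3 * r ^ 3 * K + (-12 / 125) * φ ^ 4 * r * K + (6 / 125) * φ ^ 4 * r ^ 2 * K + (6 / 125) * φ ^ 4 * r ^ 3 * K) * hK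

theorem ti2 : φ * (φ * (K * eA) + (K * eB)) = (K * ec) * (φ * (1 + ((φ - 1) * (K * eA) + (K * eB)) * (K * ep))) := by
  unfold eA eB ec ep
  linear_combination ((-157 / 375) * φ * K + (93 / 125) * φ * r * K + (-121 / 375) * φ ^ 2 * K + (-446 / 1125) * φ ^ 2 * r * K + (412 / 1125) * φ ^ 3 * K + (-382 / 1125) * φ ^ 3 * r * K + (2 / 75) * φ ^ 4 * K + (46 / 1125) * φ ^ 4 * r * K + (-2 / 125) * φ ^ 5 * K + (4 / 375) * φ ^ 5 * r * K) * hf + ((1912 / 1125) * φ * K + (-1144 / 1125) * φ * r * K + (32 / 225) * φ * r ^ 2 * K + (-28 / 45) * φ ^ 2 * K + (2216 / 1125) * φ ^ 2 * r * K + (-464 / 1125) * φ ^ 2 * r ^ 2 * K + (-3164 / 1125) * φ ^ 3 * K + (4 / 1125) * φ ^ 3 * r * K + (224 / 1125) * φ ^ 3 * r ^ 2 * K + (1504 / 1125) * φ ^ 4 * K + (-1288 / 1125) * φ ^ 4 * r * K + (152 / 1125) * φ ^ 4 * r ^ 2 * K + (64 / 375) * φ ^ 5 * K + (112 / 1125) * φ ^ 5 * r *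 K + (-16 / 375) * φ ^ 5 * r ^ 2 * K + (-8 / 125) * φ ^ 6 * K + (16 / 375) * φ ^ 6 * r * K) * hr + ((-12 / 125) * φ * K + (-14 / 125) * φ * r * K + (126 / 125) * φ * r ^ 2 * K + (-8 / 25) * φ * r ^ 3 * K + (37 / 125) * φ ^ 2 * K + (-103 / 125) * φ ^ 2 * r * K + (-26 / 25) * φ ^ 2 * r ^ 2 * K + (116 / 125) * φ ^ 2 * r ^ 3 * K + (-29 / 125) * φ ^ 3 * K + (169 / 125) * φ ^ 3 * r * K + (-109 / 125) * φ ^ 3 * r ^ 2 * K + (-56 / 125) * φ ^ 3 * r ^ 3 * K + (6 / 125) * φ ^ 4 * K + (-67 / 125) * φ ^ 4 * r * K + (114 / 125) * φ ^ 4 * r ^ 2 * K + (-38 / 125) * φ ^ 4 * r ^ 3 * K + (6 / 125) * φ ^ 5 * r * K + (-18 / 125) * φ ^ 5 * r ^ 2 * K + (12 / 125) * φ ^ 5 * r ^ 3 * K) * hK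

theorem ti3 : (φ * (K * eq) + (K * ep)) * ((K * eA) - φ * (K * eB)) = (K * ec) * ((K * eA) - (φ - 1) * (K * eB)) := by
  unfold eA eB ec ep eq
  linear_combination ((68 / 225) + (4 / 9) * r + (64 / 225) * φ + (-88 / 75) * φ * r + (47 / 75) * φ ^ 2 + (-8 / 15) * φ ^ 2 * r + (19 / 225) * φ ^ 3 + (-4 / 225) * φ ^ 3 * r + (-2 / 225) * φ ^ 4) * hf + ((-668 / 225) + (164 / 225) * r + (-596 / 225) * φ + (92 / 225) * φ * r + (32 / 45) * φ ^ 2 + (-28 / 75) * φ ^ 2 * r + (24 / 25) * φ ^ 3 + (-16 / 225) * φ ^ 3 * r + (-4 / 75) * φ ^ 4 + (8 / 225) * φ ^ 4 * r + (-8 / 225) * φ ^ 5) * hr + ((-4 / 25) + (3 / 25) * r + (-41 / 25) * r ^ 2 + (3 / 25) * φ + (16 / 25) * φ * r + (-23 / 25) * φ * r ^ 2 + (21 / 25) * φ ^ 2 * r + (21 / 25) * φ ^ 2 * r ^ 2 + (-8 / 25) * φ ^ 3 + (-17 / 25) * φ ^ 3 * r + (4 / 25) * φ ^ 3 * r ^ 2 + (6 / 25) * φ ^ 4 + (-1 / 25) * φ ^ 4 * r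 + (-2 / 25) * φ ^ 4 * r ^ 2) * hK

theorem td1 : (K * ep) + φ * (K * eq) = (K * ec) * (φ * (K * eA) * ((2 - φ) * (K * ep) + (K * eq)) + (2 - φ)) := by
  unfold eA ec ep eq
  linear_combination ((-1 / 5) * K + (9 / 5) * r * K + (-2 / 5) * φ * K + (-16 / 25) * φ * r * K + (12 / 25) * φ ^ 2 * K + (-8 / 125) * φ ^ 2 * r * K + (-71 / 375) * φ ^ 3 * K + (6 / 25) * φ ^ 3 * r * K + (-2 / 125) * φ ^ 4 * K + (-4 / 125) * φ ^ 4 * r * K + (2 / 125) * φ ^ 5 * K + (-4 / 375) * φ ^ 5 * r * K) * hf + ((-28 / 25) * φ * K + (76 / 25) * φ * r * K + (-16 / 25) * φ * r ^ 2 * K + (-1036 / 375) * φ ^ 2 * K + (-644 / 375) * φ ^ 2 * r * K + (248 / 375) * φ ^ 2 * r ^ 2 * K + (1028 / 375) * φ ^ 3 * K + (-464 / 375) * φ ^ 3 * r * K + (-8 / 375) * φ ^ 3 * r ^ 2 * K + (-284 / 375) * φ ^ 4 * K + (16 / 15) * φ ^ 4 * r * K + (-64 / 375) * φ ^ 4 * r ^ 2 * K + (-16 / 125) * φ ^ 5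 * K + (-8 / 125) * φ ^ 5 * r * K + (16 / 375) * φ ^ 5 * r ^ 2 * K + (8 / 125) * φ ^ 6 * K + (-16 / 375) * φ ^ 6 * r * K) * hr + ((-9 / 25) * φ * r * K + (-27 / 25) * φ * r ^ 2 * K + (36 / 25) * φ * r ^ 3 * K + (132 / 125) * φ ^ 2 * r * K + (-81 / 125) * φ ^ 2 * r ^ 2 * K + (-186 / 125) * φ ^ 2 * r ^ 3 * K + (-102 / 125) * φ ^ 3 * r * K + (186 / 125) * φ ^ 3 * r ^ 2 * K + (6 / 125) * φ ^ 3 * r ^ 3 * K + (39 / 125) * φ ^ 4 * r * K + (-102 / 125) * φ ^ 4 * r ^ 2 * K + (48 / 125) * φ ^ 4 * r ^ 3 * K + (-6 / 125) * φ ^ 5 * r * K + (18 / 125) * φ ^ 5 * r ^ 2 * K + (-12 / 125) * φ ^ 5 * r ^ 3 * K) * hK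

theorem td2 : (K * ep) + φ * (K * eq) = (K * ec) * (((K * eA) + (K * eB)) * ((2 - φ) * (K * ep) + (K * eq)) + (φ - 1)) := by
  unfold eA eB ec ep eq
  linear_combination ((-112 / 225) * K + (169 / 225) * r * K + (526 / 1125) * φ * K + (-242 / 375) * φ * r * K + (7 / 1125) * φ ^ 2 * K + (86 / 375) * φ ^ 2 * r * K + (-22 / 225) * φ ^ 3 * K + (16 / 225) * φ ^ 3 * r * K + (-2 / 375) * φ ^ 4 * K + (-4 / 1125) * φ ^ 4 * r * K) * hf + ((16 / 45) * K + (544 / 225) * r * K + (-128 / 225) * r ^ 2 * K + (-1496 / 375) * φ * K + (-124 / 225) * φ * r * K + (176 / 375) * φ * r ^ 2 * K + (1616 / 1125) * φ ^ 2 * K + (-496 / 375) * φ ^ 2 * r * K + (8 / 125) * φ ^ 2 * r ^ 2 * K + (436 / 1125) * φ ^ 3 * K + (72 / 125) * φ ^ 3 * r * K + (-16 / 125) * φ ^ 3 * r ^ 2 * K + (-64 / 225) * φ ^ 4 * K + (104 / 1125) * φ ^ 4 * r * K + (16 / 1125) * φ ^ 4 * r ^ 2 * K + (-8 /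 375) * φ ^ 5 * K + (-16 / 1125) * φ ^ 5 * r * K) * hr + ((-4 / 25) * K + (-4 / 5) * r * K + (-8 / 25) * r ^ 2 * K + (32 / 25) * r ^ 3 * K + (67 / 125) * φ * K + (98 / 125) * φ * r * K + (-213 / 125) * φ * r ^ 2 * K + (-132 / 125) * φ * r ^ 3 * K + (-67 / 125) * φ ^ 2 * K + (37 / 125) * φ ^ 2 * r * K + (168 / 125) * φ ^ 2 * r ^ 2 * K + (-18 / 125) * φ ^ 2 * r ^ 3 * K + (29 / 125) * φ ^ 3 * K + (-49 / 125) * φ ^ 3 * r * K + (-36 / 125) * φ ^ 3 * r ^ 2 * K + (36 / 125) * φ ^ 3 * r ^ 3 * K + (-6 / 125) * φ ^ 4 * K + (16 / 125) * φ ^ 4 * r * K + (-6 / 125) * φ ^ 4 * r ^ 2 * K + (-4 / 125) * φ ^ 4 * r ^ 3 * K) * hK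

theorem td3 : (K * eq) * ((K * eA) - (K * eB)) = (K * ep) * (K * eB) := by
  unfold eA eB ep eq
  linear_combination ((136 / 225) + (-52 / 225) * r + (-1 / 45) * φ + (4 / 225) * φ * r + (-1 / 25) * φ ^ 2) * hf + ((-532 / 225) + (124 / 225) * r + (364 / 225) * φ + (-116 / 225) * φ * r + (-32 / 225) * φ ^ 2 + (4 / 25) * φ ^ 2 * r + (-4 / 25) * φ ^ 3) * hr + ((-8 / 25) + (9 / 25) * r + (-31 / 25) * r ^ 2 + (2 / 25) * φ + (-6 / 25) * φ * r + (29 / 25) * φ * r ^ 2 + (3 / 25) * φ ^ 2 + (1 / 25) * φ ^ 2 * r + (-9 / 25) * φ ^ 2 * r ^ 2) * hK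

theorem td4 : ((K * ep) + φ * (K * eq)) * (φ * (K * ep) - (K * eq)) = (K * ec) * ((K * ep) - (2 - φ) * (K * eq)) * ((K * ep) * (φ * (K * eA)) + φ * (K * eq) * ((K * eA) + (K * eB))) := by
  unfold eA eB ec ep eq
  linear_combination ((-17 / 75) + (-104 / 225) * r + (734 / 10125) * φ + (7264 / 10125) * φ * r + (9511 / 50625) * φ ^ 2 + (-18368 / 50625) * φ ^ 2 * r + (-518 / 50625) * φ ^ 3 + (32 / 16875) * φ ^ 3 * r + (-1757 / 50625) * φ ^ 4 + (-668 / 50625) * φ ^ 4 * r + (-134 / 50625) * φ ^ 5 + (88 / 16875) * φ ^ 5 * r + (-37 / 5625) * φ ^ 6 + (196 / 16875) * φ ^ 6 * r + (-2 / 5625) * φ ^ 7 + (8 / 5625) * φ ^ 7 * r + (14 / 50625) * φ ^ 8) * hf + ((-16 / 45) + (4 / 75) * r + (14072 / 10125) * φ + (2804 / 675) * φ * r + (15932 / 10125) * φ * r ^ 2 + (-15232 / 10125) * φ * r ^ 3 + (704 / 3375) * φ * r ^ 4 + (-311108 / 50625) * φ ^ 2 + (-320188 / 50625)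 * φ ^ 2 * r + (121076 / 50625) * φ ^ 2 * r ^ 2 + (184 / 225) * φ ^ 2 * r ^ 3 + (-11296 / 50625) * φ ^ 2 * r ^ 4 + (235928 / 50625) * φ ^ 3 + (-25532 / 16875) * φ ^ 3 * r + (-122536 / 50625) * φ ^ 3 * r ^ 2 + (2648 / 5625) * φ ^ 3 * r ^ 3 + (736 / 16875) * φ ^ 3 * r ^ 4 + (-1468 / 10125) * φ ^ 4 + (328 / 125) * φ ^ 4 * r + (13372 / 50625) * φ ^ 4 * r ^ 2 + (-7712 / 16875) * φ ^ 4 * r ^ 3 + (1856 / 50625) * φ ^ 4 * r ^ 4 + (-1112 / 1875) * φ ^ 5 + (-1172 / 2025) * φ ^ 5 * r + (204 / 625) * φ ^ 5 * r ^ 2 + (1816 / 16875) * φ ^ 5 * r ^ 3 + (-416 / 16875) * φ ^ 5 * r ^ 4 + (5732 / 50625) * φ ^ 6 + (-2332 / 10125) * φ ^ 6 * r + (-5152 / 50625) * φ ^ 6 * r ^ 2 + (104 / 5625) * φ ^ 6 * r ^ 3 + (224 / 50625) * φ ^ 6 * r ^ 4 + (44 / 10125) * φ ^ 7 + (1936 / 50625) * φ ^ 7 * r + (8 / 16875) * φ ^ 7 * r ^ 2 + (-448 / 50625) * φ ^ 7 * r ^ 3 + (-128 / 50625)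 * φ ^ 8 + (232 / 50625) * φ ^ 8 * r + (224 / 50625) * φ ^ 8 * r ^ 2 + (56 / 50625) * φ ^ 9) * hr + ((3 / 25) + (8 / 25) * r + (-3 / 25) * r ^ 2 + (113 / 1125) * φ + (4 / 125) * φ * K ^ 2 + (-17 / 45) * φ * r + (13 / 125) * φ * r * K ^ 2 + (47 / 375) * φ * r ^ 2 + (14 / 125) * φ * r ^ 2 * K ^ 2 + (2273 / 1125) * φ * r ^ 3 + (137 / 125) * φ * r ^ 3 * K ^ 2 + (1696 / 1125) * φ * r ^ 4 + (132 / 125) * φ * r ^ 4 * K ^ 2 + (-176 / 375) * φ * r ^ 5 + (-2618 / 5625) * φ ^ 2 + (-119 / 625) * φ ^ 2 * K ^ 2 + (-1066 / 5625) * φ ^ 2 * r + (-331 / 625) * φ ^ 2 * r * K ^ 2 + (-1012 / 375) * φ ^ 2 * r ^ 2 + (-1027 / 625) * φ ^ 2 * r ^ 2 * K ^ 2 + (-25741 / 5625) * φ ^ 2 * r ^ 3 + (-1917 / 625) * φ ^ 2 * r ^ 3 * K ^ 2 + (-1694 / 5625) * φ ^ 2 * r ^ 4 + (-706 / 625) * φ ^ 2 * r ^ 4 * K ^ 2 + (2824 / 5625) * φ ^ 2 * r ^ 5 + (542 / 625) * φ ^ 3 + (262 / 625) * φ ^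 3 * K ^ 2 + (5849 / 5625) * φ ^ 3 * r + (563 / 625) * φ ^ 3 * r * K ^ 2 + (18172 / 5625) * φ ^ 3 * r ^ 2 + (1496 / 625) * φ ^ 3 * r ^ 2 * K ^ 2 + (156 / 125) * φ ^ 3 * r ^ 3 + (1216 / 625) * φ ^ 3 * r ^ 3 * K ^ 2 + (-5342 / 5625) * φ ^ 3 * r ^ 4 + (138 / 625) * φ ^ 3 * r ^ 4 * K ^ 2 + (-184 / 1875) * φ ^ 3 * r ^ 5 + (-436 / 625) * φ ^ 4 + (-266 / 625) * φ ^ 4 * K ^ 2 + (-704 / 1875) * φ ^ 4 * r + (-359 / 625) * φ ^ 4 * r * K ^ 2 + (-5356 / 5625) * φ ^ 4 * r ^ 2 + (-778 / 625) * φ ^ 4 * r ^ 2 * K ^ 2 + (871 / 1125) * φ ^ 4 * r ^ 3 + (-213 / 625) * φ ^ 4 * r ^ 3 * K ^ 2 + (3376 / 5625) * φ ^ 4 * r ^ 4 + (116 / 625) * φ ^ 4 * r ^ 4 * K ^ 2 + (-464 / 5625) * φ ^ 4 * r ^ 5 + (1112 / 5625) * φ ^ 5 + (128 / 625) * φ ^ 5 * K ^ 2 + (-724 / 5625) * φ ^ 5 * r + (72 / 625) * φ ^ 5 * r * K ^ 2 + (-442 / 5625) * φ ^ 5 * r ^ 2 + (174 / 625) * φ ^ 5 * r ^ 2 * K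 ^ 2 + (-551 / 1125) * φ ^ 5 * r ^ 3 + (-71 / 625) * φ ^ 5 * r ^ 3 * K ^ 2 + (-578 / 5625) * φ ^ 5 * r ^ 4 + (-78 / 625) * φ ^ 5 * r ^ 4 * K ^ 2 + (104 / 1875) * φ ^ 5 * r ^ 5 + (104 / 5625) * φ ^ 6 + (-24 / 625) * φ ^ 6 * K ^ 2 + (452 / 5625) * φ ^ 6 * r + (4 / 625) * φ ^ 6 * r * K ^ 2 + (476 / 5625) * φ ^ 6 * r ^ 2 + (-12 / 625) * φ ^ 6 * r ^ 2 * K ^ 2 + (14 / 1125) * φ ^ 6 * r ^ 3 + (18 / 625) * φ ^ 6 * r ^ 3 * K ^ 2 + (-146 / 5625) * φ ^ 6 * r ^ 4 + (14 / 625) * φ ^ 6 * r ^ 4 * K ^ 2 + (-56 / 5625) * φ ^ 6 * r ^ 5 + (-32 / 1875) * φ ^ 7 + (16 / 5625) * φ ^ 7 * r + (-16 / 1875) * φ ^ 7 * r ^ 2 + (8 / 625) * φ ^ 7 * r ^ 3 + (56 / 5625) * φ ^ 7 * r ^ 4) * hK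

theorem c2 : (K * ec) ^ 2 = (1) + (-4 / 45) * r + (52 / 45) * φ + (-64 / 45) * φ * r := by
  unfold ec
  linear_combination ((208 / 225) + (-208 / 225) * r + (4 / 15) * φ + (-32 / 225) * φ * r + (4 / 225) * φ ^ 2) * hf + ((224 / 225) + (-64 / 225) * r + (368 / 225) * φ + (-64 / 225) * φ * r + (32 / 45) * φ ^ 2 + (-16 / 225) * φ ^ 2 * r + (16 / 225) * φ ^ 3) * hr + ((1 / 25) + (8 / 25) * r + (16 / 25) * r ^ 2 + (-4 / 25) * φ + (-12 / 25) * φ * r + (16 / 25) * φ * r ^ 2 + (4 / 25) * φ ^ 2 + (-8 / 25) * φ ^ 2 * r + (4 / 25) * φ ^ 2 * r ^ 2) * hK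

theorem c4 : (K * ec) ^ 4 = (5881 / 2025) + (-1996 / 675) * r + (3188 / 675) * φ + (-2336 / 405) * φ * r := by
  have h : (K * ec) ^ 4 = ((1) + (-4 / 45) * r + (52 / 45) * φ + (-64 / 45) * φ * r) ^ 2 := by rw [← c2]; ring
  rw [h]
  linear_combination ((3856 / 2025) + (-5632 / 2025) * r + (1024 / 2025) * φ) * hf + ((16 / 2025) + (512 / 2025) * φ + (4096 / 2025) * φ ^ 2) * hr

theorem c6 : (K * ec) ^ 6 = (1056341 / 91125) + (-1319572 / 91125) * r + (1720756 / 91125) * φ + (-241856 / 10125) * φ * r := by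
  have h : (K * ec) ^ 6 = ((1) + (-4 / 45) * r + (52 / 45) * φ + (-64 / 45) * φ * r) * ((5881 / 2025) + (-1996 / 675) * r + (3188 / 675) * φ + (-2336 / 405) * φ * r) := by rw [← c2, ← c4]; ring
  rw [h]
  linear_combination ((791696 / 91125) + (-344192 / 30375) * r + (37376 / 18225) * φ) * hf + ((7984 / 30375) + (429952 / 91125) * φ + (149504 / 18225) * φ ^ 2) * hr

theorem c8 : (K * ec) ^ 8 = (195131777 / 4100625) + (-50155252 / 820125) * r + (63221404 / 820125) * φ + (-406258144 / 4100625) * φ * r := by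
  have h : (K * ec) ^ 8 = ((5881 / 2025) + (-1996 / 675) * r + (3188 / 675) * φ + (-2336 / 405) * φ * r) ^ 2 := by rw [← c4]; ring
  rw [h]
  linear_combination ((160545616 / 4100625) + (-37861888 / 820125) * r + (1364224 / 164025) * φ) * hf + ((3984016 / 455625) + (9325312 / 273375) * φ + (5456896 / 164025) * φ ^ 2) * hr

end PFaux

open PFaux in
/-- **PF0** -/
theorem pf0 : PF0 := PFaux.pf0

open PFaux in
/-- **PF** -/
theorem pf : PF := by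
  refine ⟨K * eA, K * eB, K * ep, K * eq, K * ec, ⟨tAB, tpq, ti1, ti2, ti3, td1, td2, td3, td4,
    nA, nB, np, nq, nc⟩, ?_⟩
  rw [c8, c6, c4, c2]; ring

end Pool.Agent.W2helper59.NW
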