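import Pool.Agent.W2helper59.NW.Stm

/-!
# Sy for S09083 (MP_5fb7d4_co): symmetry of the icosahedron and the dodecahedron, mirror images
-/

set_option autoImplicit false

namespace Pool.Agent.W2helper59.NW

open scoped goldenRatio

namespace SyAux

theorem hf : φ ^ 2 = φ + 1 := Real.goldenRatio_sq

theorem hdiv (s : ℝ) : s / φ = s * (φ - 1) := by
  rw [div_eq_iff Real.goldenRatio_ne_zero]
  linear_combination (-s) * hf

theorem s3eq (a b c a' b' c' : ℝ) (h0 : a + φ * ((-φ * a - b + (φ - 1) * c) / 2) = a')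
    (h1 : b + ((-φ * a - b + (φ - 1) * c) / 2) = b')
    (h2 : c - (φ - 1) * ((-φ * a - b + (φ - 1) * c) / 2) = c') :
    ![a, b, c] - ((-φ * ![a, b, c] 0 - ![a, b, c] 1 + (φ - 1) * ![a, b, c] 2) / 2) •
      ![-φ, -1, φ - 1] = ![a', b', c'] := by
  subst h0 h1 h2
  ext i
  fin_cases i
  · simp
    ring
  · simp
  · simp
    ring

/-! ### icosahedron -/

theorem finI : VI.Finite := by
  have hpm : ({1, -1} : Set ℝ).Finite := Set.toFinite _
  refine Set.Finite.subset (((hpm.image2 (fun s t : ℝ => (![0, s, t * φ] : Fin 3 → ℝ)) hpm).union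
    (hpm.image2 (fun s t : ℝ => (![s, t * φ, 0] : Fin 3 → ℝ)) hpm)).union
    (hpm.image2 (fun s t : ℝ => (![t * φ, 0, s] : Fin 3 → ℝ)) hpm)) ?_
  rintro v ⟨s, t, hs, ht, h | h | h⟩
  · exact Or.inl (Or.inl ⟨s, hs, t, ht, h.symm⟩)
  · exact Or.inl (Or.inr ⟨s, hs, t, ht, h.symm⟩)
  · exact Or.inr ⟨s, hs, t, ht, h.symm⟩

theorem negpm {s : ℝ} (hs : s = 1 ∨ s = -1) : -s = 1 ∨ -s = -1 := by
  rcases hs with h | h
  · right; rw [h]
  · left; rw [h]; norm_num

theorem sxI : ∀ v ∈ VI, ![-v 0, v 1, v 2] ∈ VI := by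
  rintro v ⟨s, t, hs, ht, h | h | h⟩
  · subst h
    exact ⟨s, t, hs, ht, Or.inl (by simp)⟩
  · subst h
    exact ⟨-s, t, negpm hs, ht, Or.inr (Or.inl (by simp))⟩
  · subst h
    exact ⟨s, -t, hs, negpm ht, Or.inr (Or.inr (by simp))⟩

theorem cycI : ∀ v ∈ VI, ![v 1, v 2, v 0] ∈ VI := by
  rintro v ⟨s, t, hs, ht, h | h | h⟩
  · subst h
    exact ⟨s, t, hs, ht, Or.inr (Or.inl (by simp))⟩
  · subst h
    exact ⟨s, t, hs, ht, Or.inr (Or.inr (by simp))⟩
  · subst h
    exact ⟨s, t, hs, ht, Or.inl (by simp)⟩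

theorem s3I : ∀ v ∈ VI, v - ((-φ * v 0 - v 1 + (φ - 1) * v 2) / 2) • ![-φ, -1, φ - 1] ∈ VI := by
  have hf := hf
  rintro v ⟨s, t, hs, ht, h | h | h⟩
  · rcases hs with hs | hs <;> rcases ht with ht | ht <;> subst hs ht h
    · refine ⟨1, 1, (Or.inl rfl), (Or.inl rfl), Or.inl ?_⟩
      refine s3eq _ _ _ _ _ _ ?_ ?_ ?_
      · linear_combination ((1 / 2) * φ) * hf
      · linear_combination ((1 / 2)) * hf
      · linear_combination ((1 / 2) + (-1 / 2) * φ) * hf
    · refine ⟨(-1), (-1), (Or.inr rfl), (Or.inr rfl), Or.inr (Or.inr ?_)⟩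
      refine s3eq _ _ _ _ _ _ ?_ ?_ ?_
      · linear_combination ((-1 / 2) * φ) * hf
      · linear_combination ((-1 / 2)) * hf
      · linear_combination ((-1 / 2) + (1 / 2) * φ) * hf
    · refine ⟨1, 1, (Or.inl rfl), (Or.inl rfl), Or.inr (Or.inr ?_)⟩
      refine s3eq _ _ _ _ _ _ ?_ ?_ ?_
      · linear_combination ((1 / 2) * φ) * hf
      · linear_combination ((1 / 2)) * hf
      · linear_combination ((1 / 2) + (-1 / 2) * φ) * hf
    · refine ⟨(-1), (-1), (Or.inr rfl), (Or.inr rfl), Or.inl ?_⟩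
      refine s3eq _ _ _ _ _ _ ?_ ?_ ?_
      · linear_combination ((-1 / 2) * φ) * hf
      · linear_combination ((-1 / 2)) * hf
      · linear_combination ((-1 / 2) + (1 / 2) * φ) * hf
  · rcases hs with hs | hs <;> rcases ht with ht | ht <;> subst hs ht h
    · refine ⟨1, (-1), (Or.inl rfl), (Or.inr rfl), Or.inr (Or.inr ?_)⟩
      refine s3eq _ _ _ _ _ _ ?_ ?_ ?_
      · linear_combination ((-1)) * hf
      · linear_combination (0) * hf
      · linear_combination ((1)) * hf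
    · refine ⟨1, (-1), (Or.inl rfl), (Or.inr rfl), Or.inr (Or.inl ?_)⟩
      refine s3eq _ _ _ _ _ _ ?_ ?_ ?_
      · linear_combination (0) * hf
      · linear_combination (0) * hf
      · linear_combination (0) * hf
    · refine ⟨(-1), 1, (Or.inr rfl), (Or.inl rfl), Or.inr (Or.inl ?_)⟩
      refine s3eq _ _ _ _ _ _ ?_ ?_ ?_
      · linear_combination (0) * hf
      · linear_combination (0) * hf
      · linear_combination (0) * hf
    · refine ⟨(-1), 1, (Or.inr rfl), (Or.inl rfl), Or.inr (Or.inr ?_)⟩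
      refine s3eq _ _ _ _ _ _ ?_ ?_ ?_
      · linear_combination ((1)) * hf
      · linear_combination (0) * hf
      · linear_combination ((-1)) * hf
  · rcases hs with hs | hs <;> rcases ht with ht | ht <;> subst hs ht h
    · refine ⟨(-1), 1, (Or.inr rfl), (Or.inl rfl), Or.inl ?_⟩
      refine s3eq _ _ _ _ _ _ ?_ ?_ ?_
      · linear_combination ((-1 / 2) * φ) * hf
      · linear_combination ((-1 / 2)) * hf
      · linear_combination ((-1 / 2) + (1 / 2) * φ) * hf
    · refine ⟨1, 1, (Or.inl rfl), (Or.inl rfl), Or.inr (Or.inl ?_)⟩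
      refine s3eq _ _ _ _ _ _ ?_ ?_ ?_
      · linear_combination ((1) + (1 / 2) * φ) * hf
      · linear_combination ((1 / 2)) * hf
      · linear_combination ((-1 / 2) + (-1 / 2) * φ) * hf
    · refine ⟨(-1), (-1), (Or.inr rfl), (Or.inr rfl), Or.inr (Or.inl ?_)⟩
      refine s3eq _ _ _ _ _ _ ?_ ?_ ?_
      · linear_combination ((-1) + (-1 / 2) * φ) * hf
      · linear_combination ((-1 / 2)) * hf
      · linear_combination ((1 / 2) + (1 / 2) * φ) * hf
    · refine ⟨1, (-1), (Or.inl rfl), (Or.inr rfl), Or.inl ?_⟩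
      refine s3eq _ _ _ _ _ _ ?_ ?_ ?_
      · linear_combination ((1 / 2) * φ) * hf
      · linear_combination ((1 / 2)) * hf
      · linear_combination ((1 / 2) + (-1 / 2) * φ) * hf

/-! ### dodecahedron -/

theorem memE (v : Fin 3 → ℝ) : v ∈ VE ↔ ∃ r s t : ℝ, (r = 1 ∨ r = -1) ∧ (s = 1 ∨ s = -1) ∧
    (t = 1 ∨ t = -1) ∧ (v = ![s, r, t] ∨ v = ![s * (φ - 1), 0, t * φ] ∨
    v = ![t * φ, s * (φ - 1), 0] ∨ v = ![0, t * φ, s * (φ - 1)]) := by
  have key : ∀ a b c : ℝ, ![v 1, v 0, v 2] = ![a, b, c] ↔ v = ![b, a, c] := by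
    intro a b c
    constructor
    · intro h
      have h0 := congrFun h 0
      have h1 := congrFun h 1
      have h2 := congrFun h 2
      simp at h0 h1 h2
      ext i
      fin_cases i <;> simp [h0, h1, h2]
    · intro h
      subst h
      ext i
      fin_cases i <;> simp
  constructor
  · rintro ⟨r, s, t, hr, hs, ht, h⟩
    refine ⟨r, s, t, hr, hs, ht, ?_⟩
    rw [key, key, key, key] at h
    simp only [hdiv] at h
    exact h
  · rintro ⟨r, s, t, hr, hs, ht, h⟩
    refine ⟨r, s, t, hr, hs, ht, ?_⟩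
    rw [key, key, key, key]
    simp only [hdiv]
    exact h

theorem finE : VE.Finite := by
  have hpm : ({1, -1} : Set ℝ).Finite := Set.toFinite _
  refine Set.Finite.subset ((((hpm.image2 (fun r v => v r)
    (hpm.image2 (fun s t : ℝ => (fun r : ℝ => (![s, r, t] : Fin 3 → ℝ))) hpm)).union
    (hpm.image2 (fun s t : ℝ => (![s * (φ - 1), 0, t * φ] : Fin 3 → ℝ)) hpm)).union
    (hpm.image2 (fun s t : ℝ => (![t * φ, s * (φ - 1), 0] : Fin 3 → ℝ)) hpm)).union
    (hpm.image2 (fun s t : ℝ => (![0, t * φ, s * (φ - 1)] : Fin 3 → ℝ)) hpm)) ?_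
  intro v hv
  rw [memE] at hv
  rcases hv with ⟨r, s, t, hr, hs, ht, h | h | h | h⟩
  · exact Or.inl (Or.inl (Or.inl ⟨r, hr, _, ⟨s, hs, t, ht, rfl⟩, h.symm⟩))
  · exact Or.inl (Or.inl (Or.inr ⟨s, hs, t, ht, h.symm⟩))
  · exact Or.inl (Or.inr ⟨s, hs, t, ht, h.symm⟩)
  · exact Or.inr ⟨s, hs, t, ht, h.symm⟩

theorem sxE : ∀ v ∈ VE, ![-v 0, v 1, v 2] ∈ VE := by
  intro v hv
  rw [memE] at hv ⊢
  rcases hv with ⟨r, s, t, hr, hs, ht, h | h | h | h⟩
  · subst h
    exact ⟨r, -s, t, hr, negpm hs, ht, Or.inl (by simp)⟩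
  · subst h
    exact ⟨r, -s, t, hr, negpm hs, ht, Or.inr (Or.inl (by
      ext i; fin_cases i <;> simp))⟩
  · subst h
    exact ⟨r, s, -t, hr, hs, negpm ht, Or.inr (Or.inr (Or.inl (by
      ext i; fin_cases i <;> simp)))⟩
  · subst h
    exact ⟨r, s, t, hr, hs, ht, Or.inr (Or.inr (Or.inr (by simp)))⟩

theorem cycE : ∀ v ∈ VE, ![v 1, v 2, v 0] ∈ VE := by
  intro v hv
  rw [memE] at hv ⊢
  rcases hv with ⟨r, s, t, hr, hs, ht, h | h | h | h⟩
  · subst h
    exact ⟨t, r, s, ht, hr, hs, Or.inl (by simp)⟩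
  · subst h
    exact ⟨r, s, t, hr, hs, ht, Or.inr (Or.inr (Or.inr (by simp)))⟩
  · subst h
    exact ⟨r, s, t, hr, hs, ht, Or.inr (Or.inl (by simp))⟩
  · subst h
    exact ⟨r, s, t, hr, hs, ht, Or.inr (Or.inr (Or.inl (by simp)))⟩

theorem s3E : ∀ v ∈ VE, v - ((-φ * v 0 - v 1 + (φ - 1) * v 2) / 2) • ![-φ, -1, φ - 1] ∈ VE := by
  have hf := hf
  intro v hv
  rw [memE] at hv ⊢
  rcases hv with ⟨r, s, t, hr, hs, ht, h | h | h | h⟩
  · rcases hr with hr | hr <;> rcases hs with hs | hs <;> rcases ht with ht | ht <;> subst hr hs ht h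
    · refine ⟨1, (-1), 1, (Or.inl rfl), (Or.inr rfl), (Or.inl rfl), Or.inr (Or.inl ?_)⟩
      refine s3eq _ _ _ _ _ _ ?_ ?_ ?_
      · linear_combination (0) * hf
      · linear_combination (0) * hf
      · linear_combination (0) * hf
    · refine ⟨1, (-1), (-1), (Or.inl rfl), (Or.inr rfl), (Or.inr rfl), Or.inr (Or.inr (Or.inl ?_))⟩
      refine s3eq _ _ _ _ _ _ ?_ ?_ ?_
      · linear_combination ((-1)) * hf
      · linear_combination (0) * hf
      · linear_combination ((1)) * hf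
    · refine ⟨1, 1, 1, (Or.inl rfl), (Or.inl rfl), (Or.inl rfl), Or.inr (Or.inr (Or.inr ?_))⟩
      refine s3eq _ _ _ _ _ _ ?_ ?_ ?_
      · linear_combination ((1)) * hf
      · linear_combination (0) * hf
      · linear_combination ((-1)) * hf
    · refine ⟨1, (-1), (-1), (Or.inl rfl), (Or.inr rfl), (Or.inr rfl), Or.inl ?_⟩
      refine s3eq _ _ _ _ _ _ ?_ ?_ ?_
      · linear_combination (0) * hf
      · linear_combination (0) * hf
      · linear_combination (0) * hf
    · refine ⟨(-1), 1, 1, (Or.inr rfl), (Or.inl rfl), (Or.inl rfl), Or.inl ?_⟩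
      refine s3eq _ _ _ _ _ _ ?_ ?_ ?_
      · linear_combination (0) * hf
      · linear_combination (0) * hf
      · linear_combination (0) * hf
    · refine ⟨1, (-1), (-1), (Or.inl rfl), (Or.inr rfl), (Or.inr rfl), Or.inr (Or.inr (Or.inr ?_))⟩
      refine s3eq _ _ _ _ _ _ ?_ ?_ ?_
      · linear_combination ((-1)) * hf
      · linear_combination (0) * hf
      · linear_combination ((1)) * hf
    · refine ⟨1, 1, 1, (Or.inl rfl), (Or.inl rfl), (Or.inl rfl), Or.inr (Or.inr (Or.inl ?_))⟩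
      refine s3eq _ _ _ _ _ _ ?_ ?_ ?_
      · linear_combination ((1)) * hf
      · linear_combination (0) * hf
      · linear_combination ((-1)) * hf
    · refine ⟨1, 1, (-1), (Or.inl rfl), (Or.inl rfl), (Or.inr rfl), Or.inr (Or.inl ?_)⟩
      refine s3eq _ _ _ _ _ _ ?_ ?_ ?_
      · linear_combination (0) * hf
      · linear_combination (0) * hf
      · linear_combination (0) * hf
  · clear hr; rcases hs with hs | hs <;> rcases ht with ht | ht <;> subst hs ht h
    · refine ⟨1, 1, 1, (Or.inl rfl), (Or.inl rfl), (Or.inl rfl), Or.inr (Or.inl ?_)⟩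
      refine s3eq _ _ _ _ _ _ ?_ ?_ ?_
      · linear_combination (0) * hf
      · linear_combination (0) * hf
      · linear_combination (0) * hf
    · refine ⟨(-1), (-1), (-1), (Or.inr rfl), (Or.inr rfl), (Or.inr rfl), Or.inl ?_⟩
      refine s3eq _ _ _ _ _ _ ?_ ?_ ?_
      · linear_combination ((-1) * φ) * hf
      · linear_combination ((-1)) * hf
      · linear_combination ((-1) + (1) * φ) * hf
    · refine ⟨1, 1, 1, (Or.inl rfl), (Or.inl rfl), (Or.inl rfl), Or.inl ?_⟩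
      refine s3eq _ _ _ _ _ _ ?_ ?_ ?_
      · linear_combination ((1) * φ) * hf
      · linear_combination ((1)) * hf
      · linear_combination ((1) + (-1) * φ) * hf
    · refine ⟨1, (-1), (-1), (Or.inl rfl), (Or.inr rfl), (Or.inr rfl), Or.inr (Or.inl ?_)⟩
      refine s3eq _ _ _ _ _ _ ?_ ?_ ?_
      · linear_combination (0) * hf
      · linear_combination (0) * hf
      · linear_combination (0) * hf
  · clear hr; rcases hs with hs | hs <;> rcases ht with ht | ht <;> subst hs ht h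
    · refine ⟨(-1), (-1), 1, (Or.inr rfl), (Or.inr rfl), (Or.inl rfl), Or.inl ?_⟩
      refine s3eq _ _ _ _ _ _ ?_ ?_ ?_
      · linear_combination ((-1) + (-1 / 2) * φ) * hf
      · linear_combination ((-1 / 2)) * hf
      · linear_combination ((1 / 2) + (1 / 2) * φ) * hf
    · refine ⟨1, (-1), 1, (Or.inl rfl), (Or.inr rfl), (Or.inl rfl), Or.inr (Or.inr (Or.inr ?_))⟩
      refine s3eq _ _ _ _ _ _ ?_ ?_ ?_
      · linear_combination ((1 / 2) * φ) * hf
      · linear_combination ((1 / 2)) * hf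
      · linear_combination ((1 / 2) + (-1 / 2) * φ) * hf
    · refine ⟨1, 1, (-1), (Or.inl rfl), (Or.inl rfl), (Or.inr rfl), Or.inr (Or.inr (Or.inr ?_))⟩
      refine s3eq _ _ _ _ _ _ ?_ ?_ ?_
      · linear_combination ((-1 / 2) * φ) * hf
      · linear_combination ((-1 / 2)) * hf
      · linear_combination ((-1 / 2) + (1 / 2) * φ) * hf
    · refine ⟨1, 1, (-1), (Or.inl rfl), (Or.inl rfl), (Or.inr rfl), Or.inl ?_⟩
      refine s3eq _ _ _ _ _ _ ?_ ?_ ?_
      · linear_combination ((1) + (1 / 2) * φ) * hf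
      · linear_combination ((1 / 2)) * hf
      · linear_combination ((-1 / 2) + (-1 / 2) * φ) * hf
  · clear hr; rcases hs with hs | hs <;> rcases ht with ht | ht <;> subst hs ht h
    · refine ⟨1, (-1), 1, (Or.inl rfl), (Or.inr rfl), (Or.inl rfl), Or.inl ?_⟩
      refine s3eq _ _ _ _ _ _ ?_ ?_ ?_
      · linear_combination ((-1) + (1 / 2) * φ) * hf
      · linear_combination ((1 / 2)) * hf
      · linear_combination ((3 / 2) + (-1 / 2) * φ) * hf
    · refine ⟨1, (-1), 1, (Or.inl rfl), (Or.inr rfl), (Or.inl rfl), Or.inr (Or.inr (Or.inl ?_))⟩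
      refine s3eq _ _ _ _ _ _ ?_ ?_ ?_
      · linear_combination ((1 / 2) * φ) * hf
      · linear_combination ((1 / 2)) * hf
      · linear_combination ((1 / 2) + (-1 / 2) * φ) * hf
    · refine ⟨1, 1, (-1), (Or.inl rfl), (Or.inl rfl), (Or.inr rfl), Or.inr (Or.inr (Or.inl ?_))⟩
      refine s3eq _ _ _ _ _ _ ?_ ?_ ?_
      · linear_combination ((-1 / 2) * φ) * hf
      · linear_combination ((-1 / 2)) * hf
      · linear_combination ((-1 / 2) + (1 / 2) * φ) * hf
    · refine ⟨(-1), 1, (-1), (Or.inr rfl), (Or.inl rfl), (Or.inr rfl), Or.inl ?_⟩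
      refine s3eq _ _ _ _ _ _ ?_ ?_ ?_
      · linear_combination ((1) + (-1 / 2) * φ) * hf
      · linear_combination ((-1 / 2)) * hf
      · linear_combination ((-3 / 2) + (1 / 2) * φ) * hf

end SyAux

open SyAux in
/-- **SymI** -/
theorem symI : SymI := ⟨finI, sxI, cycI, s3I⟩

open SyAux in
/-- **SymE** -/
theorem symE : SymE := ⟨finE, sxE, cycE, s3E⟩

namespace SyAux

theorem syI : ∀ v ∈ VI, ![v 0, -v 1, v 2] ∈ VI := by
  intro v hv
  have h1 := cycI _ (cycI _ (sxI _ (cycI v hv)))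
  simpa using h1

end SyAux

open SyAux in
/-- **PM** -/
theorem pm : PM := by
  constructor
  · intro c s t x y z h w hw q hq
    obtain ⟨v, hv, hle⟩ := h ![w 0, -w 1, w 2] (by simp; linarith) ![q 0, -q 1, q 2] (syI q hq)
    refine ⟨![v 0, -v 1, v 2], syI v hv, ?_⟩
    simp only [RQ, Matrix.vec3_dotProduct, Matrix.cons_val_zero, Matrix.cons_val_one,
      Matrix.cons_val] at hle ⊢
    nlinarith [hle]
  · intro c s t x y z h w hw q hq
    obtain ⟨v, hv, hle⟩ := h ![-w 0, w 1, w 2] (by simp; linarith) ![-q 0, q 1, q 2] (sxE q hq)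
    refine ⟨![-v 0, v 1, v 2], sxE v hv, ?_⟩
    simp only [RQ, Matrix.vec3_dotProduct, Matrix.cons_val_zero, Matrix.cons_val_one,
      Matrix.cons_val] at hle ⊢
    nlinarith [hle]

end Pool.Agent.W2helper59.NW
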